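import Pool.Agent.W394.BQN.Stm

set_option autoImplicit false

open Polynomial

noncomputable section

namespace Pool.Agent.W997.BQN

open BQ Pool.Agent.W394.BQN

/-- the elements of `GG` are invertible -/
theorem GG_inv {R : Type} [CommRing R] {M : Matrix (Fin 2) (Fin 2) R} (hM : M ∈ GG R) :
    ∃ N : Matrix (Fin 2) (Fin 2) R, M * N = 1 := by
  have h : GG R ≤ IsUnit.submonoid (Matrix (Fin 2) (Fin 2) R) := by
    unfold GG
    rw [Submonoid.closure_le]
    rintro M (⟨c, rfl⟩ | ⟨c, rfl⟩ | ⟨u, v, hu, hv, rfl⟩)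
    · exact (Matrix.isUnit_iff_isUnit_det _).2 (by simp [Matrix.det_fin_two_of])
    · exact (Matrix.isUnit_iff_isUnit_det _).2 (by simp [Matrix.det_fin_two_of])
    · refine (Matrix.isUnit_iff_isUnit_det _).2 ?_
      rw [Matrix.det_fin_two_of]
      simpa using hu.mul hv
  obtain ⟨U, hU⟩ := h hM
  exact ⟨(U⁻¹ : (Matrix (Fin 2) (Fin 2) R)ˣ), by rw [← hU]; exact U.mul_inv⟩

/-- coprimality of a row is preserved -/
theorem cop_act {R : Type} [CommRing R] {M : Matrix (Fin 2) (Fin 2) R} (hM : M ∈ GG R)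
    {a b : R} (h : IsCoprime a b) :
    IsCoprime (a * M 0 0 + b * M 1 0) (a * M 0 1 + b * M 1 1) := by
  obtain ⟨N, hN⟩ := GG_inv hM
  obtain ⟨x, y, hxy⟩ := h
  have e00 := congrFun (congrFun hN 0) 0
  have e01 := congrFun (congrFun hN 0) 1
  have e10 := congrFun (congrFun hN 1) 0
  have e11 := congrFun (congrFun hN 1) 1
  simp only [Matrix.mul_apply, Fin.sum_univ_two, Matrix.one_apply_eq, ne_eq, zero_ne_one,
    one_ne_zero, not_false_eq_true, Matrix.one_apply_ne] at e00 e01 e10 e11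
  refine ⟨x * N 0 0 + y * N 0 1, x * N 1 0 + y * N 1 1, ?_⟩
  linear_combination hxy + x * a * e00 + x * b * e10 + y * a * e01 + y * b * e11

/-- clearing denominators -/
theorem clear {D : Type} [CommRing D] [IsDomain D] (p r : D[X])
    (h : IsCoprime (algebraMap D[X] (VV D) p) (algebraMap D[X] (VV D) r)) :
    ∃ x y : D[X], p * x + r * y ∈ S2 D := by
  obtain ⟨α, β, hab⟩ := h
  obtain ⟨x0, s1, hx⟩ := IsLocalization.exists_mk'_eq (S2 D) α
  obtain ⟨y0, s2, hy⟩ := IsLocalization.exists_mk'_eq (S2 D) β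
  have hx' : α * algebraMap D[X] (VV D) s1 = algebraMap D[X] (VV D) x0 := by
    rw [← hx]; exact IsLocalization.mk'_spec (VV D) x0 s1
  have hy' : β * algebraMap D[X] (VV D) s2 = algebraMap D[X] (VV D) y0 := by
    rw [← hy]; exact IsLocalization.mk'_spec (VV D) y0 s2
  refine ⟨x0 * s2, y0 * s1, ?_⟩
  have h1 : p * (x0 * s2) + r * (y0 * s1) = (s1 * s2 : D[X]) := by
    apply IsLocalization.injective (VV D) (E.S2_le D)
    simp only [map_add, map_mul]
    rw [← hx', ← hy']
    linear_combination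
      (algebraMap D[X] (VV D) s1 * algebraMap D[X] (VV D) s2) * hab
  rw [h1]
  exact mul_mem s1.2 s2.2

/-- a polynomial with invertible leading and trailing coefficients becomes a unit -/
theorem unit_of {D : Type} [CommRing D] [IsDomain D] (p : D[X]) (h1 : IsUnit p.leadingCoeff)
    (h2 : IsUnit p.trailingCoeff) : IsUnit (algebraMap D[X] (VV D) p) := by
  obtain ⟨v, hv⟩ := h1.exists_right_inv
  obtain ⟨w, hw⟩ := h2.exists_right_inv
  have hv0 : v ≠ 0 := by
    rintro rfl
    simp at hv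
  have hw0 : w ≠ 0 := by
    rintro rfl
    simp at hw
  have hq1 : (C v * X + C w : D[X]).leadingCoeff = v := leadingCoeff_linear hv0
  have hq2 : (C v * X + C w : D[X]).trailingCoeff = w := by
    have h3 : (C v * X + C w : D[X]).coeff 0 = w := by simp
    have h4 : (C v * X + C w : D[X]).natTrailingDegree = 0 := by
      rw [natTrailingDegree_eq_zero]
      right
      rw [h3]; exact hw0
    rw [trailingCoeff, h4, h3]
  have hmem : p * (C v * X + C w) ∈ S2 D := by
    refine ⟨?_, ?_⟩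
    · rw [leadingCoeff_mul, hq1, hv]
    · show (p * (C v * X + C w)).trailingCoeff = 1
      rw [trailingCoeff_mul, hq2, hw]
  have h5 : IsUnit (algebraMap D[X] (VV D) (p * (C v * X + C w))) :=
    IsLocalization.map_units (VV D) (⟨_, hmem⟩ : S2 D)
  rw [map_mul] at h5
  exact isUnit_of_mul_isUnit_left h5

/-- Assembly: the property passes to `VV D`. -/
theorem t_VV (h1 : S_V1) (h2 : S_V2) (h3 : S_V3) : S_VV := by
  intro D _ _ _ hE a b hab
  apply h1 (VV D) a b
  obtain ⟨p, s, hp⟩ := IsLocalization.exists_mk'_eq (S2 D) a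
  obtain ⟨r, t, hr⟩ := IsLocalization.exists_mk'_eq (S2 D) b
  have hp' : a * algebraMap D[X] (VV D) s = algebraMap D[X] (VV D) p := by
    rw [← hp]; exact IsLocalization.mk'_spec (VV D) p s
  have hr' : b * algebraMap D[X] (VV D) t = algebraMap D[X] (VV D) r := by
    rw [← hr]; exact IsLocalization.mk'_spec (VV D) r t
  have hM1 : (!![algebraMap D[X] (VV D) s, 0; 0, algebraMap D[X] (VV D) t] :
      Matrix (Fin 2) (Fin 2) (VV D)) ∈ GG (VV D) :=
    Submonoid.subset_closure (Or.inr (Or.inr ⟨_, _, IsLocalization.map_units (VV D) s,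
      IsLocalization.map_units (VV D) t, rfl⟩))
  have hc1 := cop_act hM1 hab
  simp only [Matrix.of_apply, Matrix.cons_val', Matrix.cons_val_zero, Matrix.cons_val_one,
    Matrix.cons_val_fin_one, mul_zero, add_zero, zero_add] at hc1
  rw [hp', hr'] at hc1
  obtain ⟨x, y, hxy⟩ := clear p r hc1
  obtain ⟨M2, hM2, p', r', hp2, e1, e2⟩ := h2 D hE p r x y hxy
  have hc2 := cop_act hM2 hc1
  rw [← e1, ← e2] at hc2
  obtain ⟨x', y', hxy'⟩ := clear p' r' hc2
  obtain ⟨M3, hM3, p'', r'', hl, ht, e3, e4⟩ := h3 D hE p' r' x' y' hxy' hp2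
  have h5 := unit_of p'' hl ht
  have key : a * ((!![algebraMap D[X] (VV D) s, 0; 0, algebraMap D[X] (VV D) t] :
      Matrix (Fin 2) (Fin 2) (VV D)) * M2 * M3) 0 0 +
      b * ((!![algebraMap D[X] (VV D) s, 0; 0, algebraMap D[X] (VV D) t] :
      Matrix (Fin 2) (Fin 2) (VV D)) * M2 * M3) 1 0 = algebraMap D[X] (VV D) p'' := by
    rw [e3, e1, e2, ← hp', ← hr']
    simp only [Matrix.mul_apply, Fin.sum_univ_two, Matrix.of_apply, Matrix.cons_val',
      Matrix.cons_val_zero, Matrix.cons_val_one, Matrix.cons_val_fin_one]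
    ring
  refine ⟨_, mul_mem (mul_mem hM1 hM2) hM3, ?_⟩
  rw [key]
  exact h5

end Pool.Agent.W997.BQN
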